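import Mathlib
import Pool.Agent.H.MP_9eaa6a_an.Pert

set_option autoImplicit false
open MeasureTheory Set Filter Topology
open Pool.Agent.H.Flex

namespace Pool.Agent.H.Kan

theorem exps_pt {F : ℝ × ℝ → ℝ × ℝ} {a b d : ℝ × ℝ → ℝ}
    (hD : ∀ z, HasFDerivAt F (M (a z) (b z) (d z)) z) (ha : ∀ z, 0 < a z) (hd : ∀ z, 0 < d z)
    {K α δ : ℝ} {z : ℝ × ℝ} (hb : ∀ n, |b (F^[n] z)| ≤ K)
    (ta : Tendsto (fun n : ℕ => (1 / (n : ℝ)) * ∑ k ∈ Finset.range n, Real.log (a (F^[k] z)))
      atTop (𝓝 α))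
    (td : Tendsto (fun n : ℕ => (1 / (n : ℝ)) * ∑ k ∈ Finset.range n, Real.log (d (F^[k] z)))
      atTop (𝓝 δ)) (hle : δ ≤ α) :
      Tendsto (fun n : ℕ => (1 / (n : ℝ)) * Real.log (cn (fderiv ℝ F^[n] z))) atTop (𝓝 δ) ∧
      Tendsto (fun n : ℕ => (1 / (n : ℝ)) * Real.log ‖fderiv ℝ F^[n] z‖) atTop (𝓝 α) := by
  let A : ℕ → ℝ := fun n => ∏ k ∈ Finset.range n, a (F^[k] z)
  let D : ℕ → ℝ := fun n => ∏ k ∈ Finset.range n, d (F^[k] z)
  let Bn : ℕ → ℝ := fun n => Nat.rec 0 (fun n x => b (F^[n] z) * A n + d (F^[n] z) * x) n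
  have hA : ∀ n, 0 < A n := fun n => Finset.prod_pos fun _ _ => ha _
  have hD0 : ∀ n, 0 < D n := fun n => Finset.prod_pos fun _ _ => hd _
  have hder : ∀ n, HasFDerivAt F^[n] (M (A n) (Bn n) (D n)) z := by
    intro n
    induction n with
    | zero => simpa [A, D, Bn, M_one] using hasFDerivAt_id z
    | succ n ih =>
      rw [Function.iterate_succ']
      have := (hD (F^[n] z)).comp z ih
      rw [M_comp] at this
      have e1 : A (n + 1) = a (F^[n] z) * A n := by simp [A, Finset.prod_range_succ, mul_comm]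
      have e2 : D (n + 1) = d (F^[n] z) * D n := by simp [D, Finset.prod_range_succ, mul_comm]
      rw [e1, e2]
      exact this
  have ta' : Tendsto (fun n : ℕ => (1 / (n : ℝ)) * Real.log (A n)) atTop (𝓝 α) := by
    simp only [A, Real.log_prod fun _ _ => (ha _).ne']; exact ta
  have td' : Tendsto (fun n : ℕ => (1 / (n : ℝ)) * Real.log (D n)) atTop (𝓝 δ) := by
    simp only [D, Real.log_prod fun _ _ => (hd _).ne']; exact td
  have tt : ∀ N : ℕ → ℝ, (∀ n, A n ≤ N n) → (∀ n, N n ≤ A n + |Bn n| + D n) →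
      Tendsto (fun n : ℕ => (1 / (n : ℝ)) * Real.log (N n)) atTop (𝓝 α) :=
    fun N h1 h2 => top_exp (Bn := Bn) (b := fun n => b (F^[n] z))
      (d := fun n => d (F^[n] z)) hA hD0 hb rfl (fun n => rfl)
      (fun n => by simp [D, Finset.prod_range_succ, mul_comm]) ta' td' hle h1 h2
  simp only [fun n => (hder n).fderiv]
  refine ⟨?_, tt _ (fun n => M_low _ _ _) fun n => ?_⟩
  · have t1 := tt (fun n => A n + |Bn n| + D n)
      (fun n => by linarith [abs_nonneg (Bn n), hD0 n]) fun n => le_rfl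
    have t2 := (ta'.add td').sub t1
    rw [add_sub_cancel_left] at t2
    refine tendsto_of_tendsto_of_tendsto_of_le_of_le t2 td' (fun n => ?_) fun n => ?_
    · have a0 := hA n
      have d0 := hD0 n
      have h3 := Real.log_le_log (by positivity) (cn_low (Bn n) a0 d0)
      rw [Real.log_div (by positivity) (by positivity), Real.log_mul a0.ne' d0.ne'] at h3
      simp only [← mul_add, ← mul_sub]
      exact mul_le_mul_of_nonneg_left h3 (by positivity)
    · have a0 := hA n
      have d0 := hD0 n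
      exact mul_le_mul_of_nonneg_left (Real.log_le_log
        (lt_of_lt_of_le (by positivity) (cn_low (Bn n) a0 d0)) (cn_up _ d0)) (by positivity)
  · simpa only [abs_of_pos (hA n), abs_of_pos (hD0 n)] using M_up (A n) (Bn n) (D n)

open Real in
noncomputable def a (x : ℝ) : ℝ := 2 * exp (cos (2 * Real.pi * x) - 1) - 1
open Real in
noncomputable def φ (y : ℝ) : ℝ :=
  2 / (5 * Real.pi) * sin (2 * Real.pi * y) + 1 / (20 * Real.pi) * sin (2 * (2 * Real.pi * y))
open Real in
noncomputable def φ' (y : ℝ) : ℝ := 4 / 5 * cos (2 * Real.pi * y) + 1 / 5 * cos (2 * (2 * Real.pi * y))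

theorem a_sm : ContDiff ℝ (⊤ : ℕ∞) a := by unfold a; fun_prop
theorem φ_sm : ContDiff ℝ (⊤ : ℕ∞) φ := by unfold φ; fun_prop

theorem hφ (y : ℝ) : HasDerivAt φ (φ' y) y := by
  have h := (hasDerivAt_id y).const_mul (2 * Real.pi)
  have := (h.sin.const_mul (2 / (5 * Real.pi))).add ((h.const_mul 2).sin.const_mul (1 / (20 * Real.pi)))
  refine this.congr_deriv ?_
  have := Real.pi_ne_zero
  simp only [φ', id]
  field_simp
  ring

theorem ha (x : ℝ) : HasDerivAt a (deriv a x) x := (a_sm.differentiable (by simp) x).hasDerivAt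

theorem per (y : ℝ) (l : ℤ) : 2 * Real.pi * (y + l) = 2 * Real.pi * y + l * (2 * Real.pi) := by ring

theorem a_int (x : ℝ) (l : ℤ) : a (x + l) = a x := by
  rw [a, a, per, Real.cos_add_int_mul_two_pi]

theorem φ_int (y : ℝ) (l : ℤ) : φ (y + l) = φ y := by
  simp only [φ, Real.sin_two_mul, per, Real.cos_add_int_mul_two_pi, Real.sin_add_int_mul_two_pi]

theorem φ'_int (y : ℝ) (l : ℤ) : φ' (y + l) = φ' y := by
  simp only [φ', Real.cos_two_mul, per, Real.cos_add_int_mul_two_pi]

theorem φ_z (l : ℤ) : φ l = 0 := by simpa [φ] using φ_int 0 l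

theorem φ'_z (l : ℤ) : φ' l = 1 := by
  have := φ'_int 0 l
  rw [zero_add] at this
  rw [this]; simp [φ']; norm_num

theorem d_pos (x y : ℝ) : 0 < 1 + a x * φ' y := by
  have h1 : -1 < a x := by have := Real.exp_pos (Real.cos (2 * Real.pi * x) - 1); rw [a]; linarith
  have h2 : a x ≤ 1 := by
    have := Real.exp_le_one_iff.2 (sub_nonpos.2 (Real.cos_le_one (2 * Real.pi * x)))
    rw [a]; linarith
  have h3 := Real.cos_le_one (2 * Real.pi * y)
  have h4 := Real.neg_one_le_cos (2 * Real.pi * y)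
  have h5 : φ' y ≤ 1 := by rw [φ', Real.cos_two_mul]; nlinarith
  have h6 : -(3 / 5) ≤ φ' y := by rw [φ', Real.cos_two_mul]; nlinarith
  rcases le_total 0 (a x) with h | h <;> nlinarith

noncomputable def F (z : ℝ × ℝ) : ℝ × ℝ := (2 * z.1, z.2 + a z.1 * φ z.2)

theorem F_sm : ContDiff ℝ (⊤ : ℕ∞) F := by
  have := a_sm; have := φ_sm
  unfold F; fun_prop

theorem hF (z : ℝ × ℝ) : HasFDerivAt F (M 2 (deriv a z.1 * φ z.2) (1 + a z.1 * φ' z.2)) z := by
  have := ((hasFDerivAt_fst (𝕜 := ℝ) (p := z)).const_mul 2).prodMk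
    ((hasFDerivAt_snd (𝕜 := ℝ)).add
      (((ha z.1).comp_hasFDerivAt z (hasFDerivAt_fst (𝕜 := ℝ))).mul
        ((hφ z.2).comp_hasFDerivAt z (hasFDerivAt_snd (𝕜 := ℝ)))))
  refine this.congr_fderiv ?_
  refine ContinuousLinearMap.ext fun v => ?_
  simp [M_apply]
  ring

noncomputable def f (z : T × T) : T × T := π (F (rep z.1, rep z.2))

theorem f_meas : Measurable f :=
  meas_π.comp (F_sm.continuous.measurable.comp ((rep_meas.comp measurable_fst).prodMk
    (rep_meas.comp measurable_snd)))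

theorem f_π (z : ℝ × ℝ) : f (π z) = π (F z) := by
  obtain ⟨k, hk⟩ := rep_coe z.1
  obtain ⟨l, hl⟩ := rep_coe z.2
  simp only [f, π, F, hk, hl, a_int, φ_int]
  rw [mul_add, show (2 * k : ℝ) = ((2 * k : ℤ) : ℝ) by push_cast; ring, coe_int, add_right_comm,
    coe_int]

theorem F_line (x : ℝ) (l : ℤ) : F (x, l) = (2 * x, (l : ℝ)) := by simp [F, φ_z]

theorem f_line (x : ℝ) : f (π (x, 0)) = π (2 * x, 0) := by
  have := F_line x 0
  rw [Int.cast_zero] at this
  rw [f_π, this]

theorem f_line' (x : T) : f (x, 0) = ((2 : ℕ) • x, 0) := by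
  have := f_line (rep x)
  simp only [π, coe_rep] at this
  rw [show ((2 * rep x : ℝ) : T) = (2 : ℕ) • x by
    rw [show 2 * rep x = (2 : ℕ) • rep x by simp, AddCircle.coe_nsmul, coe_rep]] at this
  exact this

theorem not_inj : ¬ Function.Injective f := by
  intro h
  have h1 : f (π (1 / 2, 0)) = f (π (0, 0)) := by
    rw [f_line, f_line]
    simp only [π]
    rw [show ((2 * (1 / 2) : ℝ) : T) = ((2 * 0 : ℝ) : T) from by simpa using coe_int 0 1]
  have h2 := congrArg (fun z => rep z.1) (h h1)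
  simp only [π] at h2
  rw [rep_id ⟨by norm_num, by norm_num⟩, rep_id ⟨le_rfl, zero_lt_one⟩] at h2
  norm_num at h2

noncomputable def μ : Measure (T × T) := (volume : Measure T).map fun x => (x, 0)

theorem erg : Ergodic f μ :=
  MeasurePreserving.ergodic_of_ergodic_semiconj (g := fun x : T => (x, (0 : T)))
    ⟨measurable_prodMk_right, rfl⟩ (AddCircle.ergodic_nsmul one_lt_two) f_meas
    fun x => (f_line' x).symm

theorem lyap : ∀ᵐ p ∂μ, ∀ z, π z = p →
    Tendsto (fun n : ℕ => (1 / (n : ℝ)) * Real.log (cn (fderiv ℝ F^[n] z))) atTop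
      (𝓝 (Real.log 2 - 1)) ∧
    Tendsto (fun n : ℕ => (1 / (n : ℝ)) * Real.log ‖fderiv ℝ F^[n] z‖) atTop (𝓝 (Real.log 2)) := by
  refine (measurableEmbedding_prod_mk_right (0 : T)).ae_map_iff.2 ?_
  let ld : T → ℝ := fun x => Real.log 2 + (Real.cos (2 * Real.pi * rep x) - 1)
  have e : ∀ x : ℝ, ld x = Real.log 2 + (Real.cos (2 * Real.pi * x) - 1) := fun x => by
    obtain ⟨k, hk⟩ := rep_coe x
    simp only [ld, hk, per, Real.cos_add_int_mul_two_pi]
  have m : Measurable ld := by have := rep_meas; fun_prop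
  have i : Integrable ld := int_bdd m (C := |Real.log 2| + (1 + |1|)) fun x =>
    (abs_add_le _ _).trans (add_le_add le_rfl ((abs_sub _ _).trans
      (add_le_add (Real.abs_cos_le_one _) le_rfl)))
  have hi : ∫ x, ld x = Real.log 2 - 1 := by
    rw [intT]
    simp only [e]
    rw [intervalIntegral.integral_add (by simp) ((by fun_prop : Continuous _).intervalIntegrable _ _),
      intervalIntegral.integral_sub ((by fun_prop : Continuous _).intervalIntegrable _ _) (by simp),
      intervalIntegral.integral_comp_mul_left (fun x => Real.cos x) Real.two_pi_pos.ne']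
    simp [sub_eq_add_neg]
  filter_upwards [birk (AddCircle.ergodic_nsmul (T := 1) one_lt_two) i] with x hx z hz
  rw [hi] at hx
  have h1 : (z.1 : T) = x := congrArg Prod.fst hz
  have h2 : (z.2 : T) = 0 := congrArg Prod.snd hz
  obtain ⟨l, hl⟩ := (AddCircle.coe_eq_zero_iff _).1 h2
  have h3 : z = (z.1, (l : ℝ)) := by ext <;> simp [← hl]
  have h4 : ∀ k, (F^[k] z).2 = l ∧ ((F^[k] z).1 : T) = (fun y : T => (2 : ℕ) • y)^[k] x := by
    intro k
    induction k with
    | zero => exact ⟨by simp [← hl], h1⟩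
    | succ k ih =>
      rw [Function.iterate_succ_apply', Function.iterate_succ_apply', ← ih.2]
      refine ⟨by simp [F, ih.1, φ_z], ?_⟩
      rw [← AddCircle.coe_nsmul]; simp [F]
  refine exps_pt hF (fun _ => two_pos) (fun z => d_pos _ _) (K := 0)
    (fun n => by simp [(h4 n).1, φ_z]) ?_ (hx.congr fun n => ?_) (by linarith)
  · refine tendsto_const_nhds.congr' ?_
    filter_upwards [eventually_gt_atTop 0] with n hn
    have : (n : ℝ) ≠ 0 := by positivity
    simp; field_simp
  · congr 1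
    refine Finset.sum_congr rfl fun k _ => ?_
    rw [← (h4 k).2, e, (h4 k).1, φ'_z, mul_one, a, add_sub_cancel,
      Real.log_mul two_ne_zero (Real.exp_pos _).ne', Real.log_exp]

theorem Fn0 (n : ℕ) (k l : ℤ) : HasFDerivAt F^[n] (M (2 ^ n) 0 (2 ^ n)) (k, l) := by
  induction n generalizing k with
  | zero => simpa [M_one] using hasFDerivAt_id _
  | succ n ih =>
    rw [Function.iterate_succ]
    have h1 := hF (k, l)
    have h2 : a k = 1 := by
      have := a_int 0 k
      rw [zero_add] at this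
      rw [this]; simp [a]; norm_num
    simp only [φ_z, φ'_z, h2, mul_zero] at h1
    have h3 := ih (2 * k)
    push_cast at h3
    rw [← F_line] at h3
    have := h3.comp _ h1
    rw [M_comp] at this
    rw [show (2 : ℝ) ^ n * 2 = 2 ^ (n + 1) by ring, show (2 : ℝ) ^ n * (1 + 1 * 1) = 2 ^ (n + 1) by ring,
      show (0 : ℝ) * 2 + 2 ^ n * 0 = 0 by ring] at this
    exact this

theorem lift_ball {c r : ℝ} {p : T} (h : dist p (c : T) ≤ r) : ∃ t : ℝ, (t : T) = p ∧ |t - c| ≤ r := by
  refine ⟨rep p + (-round (rep p - c) : ℤ), by rw [coe_int, coe_rep], ?_⟩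
  rw [← coe_rep p, dist_eq_norm, ← AddCircle.coe_sub, UnitAddCircle.norm_eq] at h
  convert h using 2
  push_cast; ring

theorem dist_coe (s t : ℝ) : dist (s : T) (t : T) ≤ |s - t| := by
  rw [dist_eq_norm, ← AddCircle.coe_sub]; exact QuotientAddGroup.norm_mk_le_norm

theorem dissip (ρ : T × T → ℝ) (hc : Continuous ρ) (hp : ∀ p, 0 < ρ p) :
    ¬ MeasurePreserving f (volume.withDensity fun p => ENNReal.ofReal (ρ p))
      (volume.withDensity fun p => ENNReal.ofReal (ρ p)) := by
  intro h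
  set p0 : T × T := π (0, 1 / 2) with hp0
  have e1 : φ (1 / 2) = 0 := by
    rw [φ, show 2 * Real.pi * (1 / 2) = Real.pi by ring]; simp
  have e2 : φ' (1 / 2) = -(3 / 5) := by
    rw [φ', show 2 * Real.pi * (1 / 2) = Real.pi by ring]; simp; norm_num
  have e3 : a 0 = 1 := by simp [a]; norm_num
  have h1 := hF (0, 1 / 2)
  simp only [e1, e2, e3, mul_zero] at h1
  have h2 := (hasFDerivAt_iff_isLittleO.1 h1).def (show (0 : ℝ) < 1 / 20 by norm_num)
  obtain ⟨r1, r10, hr1⟩ := Metric.eventually_nhds_iff.1 h2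
  have r0 := hp p0
  obtain ⟨r2, r20, hr2⟩ := Metric.continuous_iff.1 hc p0 (ρ p0 / 50) (by positivity)
  set r := min (min r1 r2) 1 / 10 with hr
  have m0 : 0 < min (min r1 r2) 1 := lt_min (lt_min r10 r20) one_pos
  have m1 : min (min r1 r2) 1 ≤ r1 := (min_le_left _ _).trans (min_le_left _ _)
  have m2 : min (min r1 r2) 1 ≤ r2 := (min_le_left _ _).trans (min_le_right _ _)
  have m3 : min (min r1 r2) 1 ≤ 1 := min_le_right _ _
  have rp : 0 < r := by positivity
  let U : ℝ → ℝ → Set (T × T) := fun s t => Metric.closedBall p0.1 s ×ˢ Metric.closedBall p0.2 t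
  have mU : ∀ s t, MeasurableSet (U s t) := fun s t =>
    measurableSet_closedBall.prod measurableSet_closedBall
  have vU : ∀ s t, 0 ≤ s → 2 * s ≤ 1 → 2 * t ≤ 1 → volume (U s t) = ENNReal.ofReal (4 * s * t) := by
    intro s t a0 a1 a2
    rw [Measure.volume_eq_prod, Measure.prod_prod, AddCircle.volume_closedBall,
      AddCircle.volume_closedBall, min_eq_right a1, min_eq_right a2,
      ← ENNReal.ofReal_mul (by linarith)]
    congr 1; ring
  have hρ : ∀ s t, s < r2 → t < r2 → ∀ p ∈ U s t, |ρ p - ρ p0| < ρ p0 / 50 := fun s t a1 a2 p hp =>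
    hr2 p (max_lt (hp.1.trans_lt a1) (hp.2.trans_lt a2))
  have sub : U r r ⊆ f ⁻¹' U (41 / 20 * r) (9 / 20 * r) := by
    rintro ⟨p, q⟩ ⟨a1, a2⟩
    obtain ⟨s, rfl, hs⟩ := lift_ball (c := 0) a1
    obtain ⟨t, rfl, ht⟩ := lift_ball (c := 1 / 2) a2
    have n1 : ‖(s, t) - ((0 : ℝ), (1 / 2 : ℝ))‖ ≤ r := max_le hs ht
    have h3 := hr1 (y := (s, t)) (by rw [dist_eq_norm]; linarith)
    have h4 : F (0, 1 / 2) = (0, 1 / 2) := by simp [F, ← one_div, e1]
    rw [h4, M_apply] at h3
    have b1 := (norm_fst_le _).trans h3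
    have b2 := (norm_snd_le _).trans h3
    have h5 := f_π (s, t)
    simp only [π] at h5
    simp only [Prod.fst_sub, Prod.snd_sub, Real.norm_eq_abs] at b1 b2
    have c1 := abs_le.1 hs
    have c2 := abs_le.1 ht
    have c3 := abs_le.1 b1
    have c4 := abs_le.1 b2
    rw [mem_preimage, h5]
    refine ⟨(dist_coe _ 0).trans ?_, (dist_coe _ (1 / 2)).trans ?_⟩ <;> rw [abs_le] <;>
      constructor <;> linarith
  have k1 := (measure_mono sub).trans_eq (h.measure_preimage (mU _ _).nullMeasurableSet)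
  rw [withDensity_apply _ (mU _ _), withDensity_apply _ (mU _ _)] at k1
  have k2 : ∫⁻ _ in U r r, ENNReal.ofReal (49 / 50 * ρ p0) ≤ ∫⁻ p in U r r, ENNReal.ofReal (ρ p) :=
    setLIntegral_mono' (mU _ _) fun p hp => ENNReal.ofReal_le_ofReal (by
      linarith [(abs_lt.1 (hρ r r (by linarith) (by linarith) p hp)).1])
  have k3 : ∫⁻ p in U (41 / 20 * r) (9 / 20 * r), ENNReal.ofReal (ρ p) ≤
      ∫⁻ _ in U (41 / 20 * r) (9 / 20 * r), ENNReal.ofReal (51 / 50 * ρ p0) :=
    setLIntegral_mono' (mU _ _) fun p hp => ENNReal.ofReal_le_ofReal (by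
      linarith [(abs_lt.1 (hρ _ _ (by linarith) (by linarith) p hp)).2])
  have k4 := k2.trans (k1.trans k3)
  rw [setLIntegral_const, setLIntegral_const, vU _ _ rp.le (by linarith) (by linarith),
    vU _ _ (by positivity) (by linarith) (by linarith), ← ENNReal.ofReal_mul (by positivity),
    ← ENNReal.ofReal_mul (by positivity), ENNReal.ofReal_le_ofReal_iff (by positivity)] at k4
  nlinarith [mul_pos r0 (mul_pos rp rp)]

/-! the natural extension -/

noncomputable def X (ω : ℕ → Bool) (t : ℝ) : ℕ → ℝ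
  | 0 => t
  | n + 1 => (X ω t n + if ω n then 1 else 0) / 2

theorem X_shift (ω : ℕ → Bool) (t : ℝ) (n : ℕ) :
    X ω t (n + 1) = X (fun k => ω (k + 1)) ((t + if ω 0 then 1 else 0) / 2) n := by
  induction n with
  | zero => rfl
  | succ n ih => rw [X, ih]; rfl

theorem X_mem (ω : ℕ → Bool) {t : ℝ} (ht : t ∈ Ico (0 : ℝ) 1) (n : ℕ) : X ω t n ∈ Ico (0 : ℝ) 1 := by
  induction n with
  | zero => exact ht
  | succ n ih => rw [X]; split_ifs <;> constructor <;> linarith [ih.1, ih.2]

theorem X_sub (ω : ℕ → Bool) (s t : ℝ) (n : ℕ) : X ω s n - X ω t n = (1 / 2) ^ n * (s - t) := by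
  induction n with
  | zero => simp [X]
  | succ n ih => rw [X, X, pow_succ]; linarith

theorem X_meas (n : ℕ) : Measurable fun w : (ℕ → Bool) × ℝ => X w.1 w.2 n := by
  induction n with
  | zero => exact measurable_snd
  | succ n ih =>
    refine (ih.add ?_).div_const 2
    exact (measurable_of_countable (fun b : Bool => if b then (1 : ℝ) else 0)).comp
      ((measurable_pi_apply n).comp measurable_fst)

noncomputable def Γ (ω : ℕ → Bool) (t : ℝ) (n : ℕ) : T × T := π (X ω t n, 0)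

theorem Γ_meas : Measurable fun w : (ℕ → Bool) × ℝ => Γ w.1 w.2 :=
  measurable_pi_lambda _ fun n => meas_π.comp ((X_meas n).prodMk measurable_const)

theorem Γ_orb (ω : ℕ → Bool) (t : ℝ) (n : ℕ) : f (Γ ω t (n + 1)) = Γ ω t n := by
  rw [Γ, f_line, Γ, X, mul_div_cancel₀ _ two_ne_zero]
  simp only [π]
  split_ifs
  · rw [show ((X ω t n + 1 : ℝ) : T) = (X ω t n : ℝ) from by simpa using coe_int _ 1]
  · rw [add_zero]

noncomputable def dig (s : ℝ) (n : ℕ) : Bool := decide (1 / 2 ≤ Int.fract (2 ^ n * s))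

theorem dig_meas : Measurable dig := measurable_pi_lambda _ fun n => by
  refine measurable_to_bool ?_
  have : (fun s => dig s n) ⁻¹' {true} = {s | 1 / 2 ≤ Int.fract (2 ^ n * s)} := by
    ext s; simp [dig]
  rw [this]
  exact measurableSet_le measurable_const (by fun_prop)

noncomputable def B (w : ℝ × ℝ) : ℝ × ℝ :=
  (Int.fract (2 * w.1), (w.2 + if dig w.1 0 then 1 else 0) / 2)

noncomputable def Φ (w : ℝ × ℝ) : ℕ → T × T := Γ (dig w.1) w.2

theorem Φ_meas : Measurable Φ := Γ_meas.comp ((dig_meas.comp measurable_fst).prodMk measurable_snd)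

theorem Φ_B (w : ℝ × ℝ) : Φ (B w) = fun n => Φ w (n + 1) := by
  ext1 n
  simp only [Φ, Γ, B]
  rw [X_shift]
  congr 3
  ext k
  simp only [dig]
  rw [← Int.self_sub_floor (2 * w.1), mul_sub, show (2 : ℝ) ^ k * (⌊2 * w.1⌋ : ℤ) = ((2 ^ k * ⌊2 * w.1⌋ : ℤ) : ℝ) by
    push_cast; ring, Int.fract_sub_intCast, ← mul_assoc, ← pow_succ]

noncomputable def L : Measure ℝ := volume.restrict (Ico 0 1)

instance : IsProbabilityMeasure L := ⟨by simp [L]⟩

theorem vol_aff (c e : ℝ) (hc : 0 < c) (S : Set ℝ) :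
    volume ((fun x => c * x + e) ⁻¹' S) = ENNReal.ofReal c⁻¹ * volume S := by
  rw [show (fun x => c * x + e) ⁻¹' S = (fun x => c * x) ⁻¹' ((fun x => x + e) ⁻¹' S) from rfl,
    Real.volume_preimage_mul_left hc.ne', measure_preimage_add_right, abs_of_pos (inv_pos.2 hc)]

theorem B_meas : Measurable B := by
  refine (measurable_fract.comp (measurable_fst.const_mul 2)).prodMk
    ((measurable_snd.add ?_).div_const 2)
  exact (measurable_of_countable (fun b : Bool => if b then (1 : ℝ) else 0)).comp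
    ((measurable_pi_apply 0).comp (dig_meas.comp measurable_fst))

theorem B_mp : MeasurePreserving B (L.prod L) (L.prod L) := by
  refine ⟨B_meas, (Measure.prod_eq fun A C hA hC => ?_).symm⟩
  rw [Measure.map_apply B_meas (hA.prod hC), L, Measure.prod_restrict,
    Measure.restrict_apply (B_meas (hA.prod hC)), Measure.restrict_apply hA,
    Measure.restrict_apply hC]
  have e : B ⁻¹' A ×ˢ C ∩ Ico (0 : ℝ) 1 ×ˢ Ico (0 : ℝ) 1 =
      ((fun x => 2 * x + 0) ⁻¹' (A ∩ Ico 0 1)) ×ˢ
        ((fun x => 1 / 2 * x + 0) ⁻¹' (C ∩ Ico 0 (1 / 2))) ∪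
      ((fun x => 2 * x + -1) ⁻¹' (A ∩ Ico 0 1)) ×ˢ
        ((fun x => 1 / 2 * x + 1 / 2) ⁻¹' (C ∩ Ico (1 / 2) 1)) := by
    ext ⟨s, t⟩
    simp only [B, dig, pow_zero, one_mul, mem_inter_iff, mem_preimage, mem_prod, mem_union, mem_Ico,
      decide_eq_true_eq]
    constructor
    · rintro ⟨⟨a1, a2⟩, ⟨b1, b2⟩, c1, c2⟩
      rw [Int.fract_eq_self.2 ⟨b1, b2⟩] at a2
      by_cases h : 1 / 2 ≤ s
      · right
        rw [if_pos h] at a2
        rw [← Int.fract_sub_one, Int.fract_eq_self.2 ⟨by linarith, by linarith⟩] at a1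
        exact ⟨⟨by convert a1 using 1; ring, by linarith, by linarith⟩, by convert a2 using 1; ring,
          by linarith, by linarith⟩
      · left
        rw [if_neg h] at a2
        rw [Int.fract_eq_self.2 ⟨by linarith, by linarith⟩] at a1
        exact ⟨⟨by convert a1 using 1; ring, by linarith, by linarith⟩, by convert a2 using 1; ring,
          by linarith, by linarith⟩
    · rintro (⟨⟨a1, a2, a3⟩, b1, b2, b3⟩ | ⟨⟨a1, a2, a3⟩, b1, b2, b3⟩)
      · rw [Int.fract_eq_self.2 (⟨by linarith, by linarith⟩ : 0 ≤ s ∧ s < 1), if_neg (by linarith),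
          Int.fract_eq_self.2 ⟨by linarith, by linarith⟩]
        exact ⟨⟨by convert a1 using 1; ring, by convert b1 using 1; ring⟩,
          ⟨by linarith, by linarith⟩, by linarith, by linarith⟩
      · rw [Int.fract_eq_self.2 (⟨by linarith, by linarith⟩ : 0 ≤ s ∧ s < 1), if_pos (by linarith),
          ← Int.fract_sub_one, Int.fract_eq_self.2 ⟨by linarith, by linarith⟩]
        exact ⟨⟨by convert a1 using 1; ring, by convert b1 using 1; ring⟩,
          ⟨by linarith, by linarith⟩, by linarith, by linarith⟩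
  have m1 : ∀ c e : ℝ, Measurable fun x : ℝ => c * x + e := fun c e => by fun_prop
  rw [e, measure_union _ ((m1 _ _ (hA.inter measurableSet_Ico)).prod
    (m1 _ _ (hC.inter measurableSet_Ico))), Measure.prod_prod, Measure.prod_prod,
    vol_aff _ _ two_pos, vol_aff _ _ two_pos, vol_aff _ _ (by norm_num), vol_aff _ _ (by norm_num),
    ← Ico_union_Ico_eq_Ico (a := (0 : ℝ)) (b := 1 / 2) (c := 1) (by norm_num) (by norm_num),
    inter_union_distrib_left C, measure_union ((Ico_disjoint_Ico_same).mono inter_subset_right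
      inter_subset_right) (hC.inter measurableSet_Ico), mul_add]
  · have : ENNReal.ofReal 2⁻¹ * ENNReal.ofReal (1 / 2)⁻¹ = 1 := by
      rw [← ENNReal.ofReal_mul (by norm_num)]; norm_num
    congr 1 <;> rw [mul_mul_mul_comm, this, one_mul]
  · rw [Set.disjoint_left]
    rintro ⟨s, t⟩ ⟨⟨-, -, a⟩, -⟩ ⟨⟨-, b, -⟩, -⟩
    simp only at a b
    linarith

noncomputable def ν : Measure (ℕ → T × T) := (L.prod L).map Φ

instance : IsProbabilityMeasure ν := Measure.isProbabilityMeasure_map Φ_meas.aemeasurable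

noncomputable def fh (x : ℕ → T × T) : ℕ → T × T
  | 0 => f (x 0)
  | n + 1 => x n

theorem fh_meas : Measurable fh := measurable_pi_lambda _ fun n => by
  cases n with
  | zero => exact f_meas.comp (measurable_pi_apply 0)
  | succ n => exact measurable_pi_apply n

theorem ν_inv : MeasurePreserving fh ν ν := by
  refine ⟨fh_meas, ?_⟩
  have h : fh ∘ Φ ∘ B = Φ := by
    ext1 w
    simp only [Function.comp, Φ_B]
    ext1 n
    cases n with
    | zero => exact Γ_orb _ _ 0
    | succ n => rfl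
  conv_lhs => rw [ν, ← B_mp.map_eq]
  rw [Measure.map_map Φ_meas B_meas, Measure.map_map fh_meas (Φ_meas.comp B_meas), h, ν]

theorem ν_orb : ∀ᵐ x ∂ν, ∀ n, f (x (n + 1)) = x n := by
  refine ae_all_iff.2 fun n => (ae_map_iff Φ_meas.aemeasurable (measurableSet_eq_fun
    (f_meas.comp (measurable_pi_apply _)) (measurable_pi_apply _))).2 ?_
  exact Eventually.of_forall fun w => Γ_orb _ _ n

theorem L_coe : L.map (fun t : ℝ => π (t, 0)) = μ := by
  have h := (UnitAddCircle.measurePreserving_mk 0).map_eq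
  rw [zero_add] at h
  rw [μ, ← h, Measure.map_map measurable_prodMk_right meas_coe, L, restrict_Ico_eq_restrict_Ioc]
  rfl

theorem ν_proj : ν.map (fun x => x 0) = μ := by
  rw [ν, Measure.map_map (measurable_pi_apply 0) Φ_meas, ← L_coe]
  conv_rhs => rw [← (measurePreserving_snd (μ := L) (ν := L)).map_eq]
  rw [Measure.map_map (g := fun t : ℝ => π (t, 0)) (meas_π.comp measurable_prodMk_right)
    measurable_snd]
  rfl

noncomputable def ζ (x : ℕ → T × T) (n : ℕ) : Bool := decide (1 / 2 ≤ rep (x (n + 1)).1)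

theorem ζ_meas : Measurable ζ := measurable_pi_lambda _ fun n => by
  refine measurable_to_bool ?_
  have : (fun x => ζ x n) ⁻¹' {true} = {x | 1 / 2 ≤ rep (x (n + 1)).1} := by
    ext s; simp [ζ]
  rw [this]
  exact measurableSet_le measurable_const
    (rep_meas.comp (measurable_fst.comp (measurable_pi_apply _)))

theorem ζ_Γ (ω : ℕ → Bool) {t : ℝ} (ht : t ∈ Ico (0 : ℝ) 1) : ζ (Γ ω t) = ω := by
  ext n
  have e : rep (Γ ω t (n + 1)).1 = X ω t (n + 1) := rep_id (X_mem ω ht _)
  rw [ζ, e, X]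
  have := X_mem ω ht n
  cases ω n
  · simp; linarith [this.2]
  · simp; linarith [this.1]

noncomputable def κ : ProbabilityTheory.Kernel (ℕ → Bool) (ℕ → T × T) where
  toFun ω := L.map (Γ ω)
  measurable' := Measure.measurable_of_measurable_coe _ fun A hA => by
    have m : ∀ ω, Measurable (Γ ω) := fun ω => Γ_meas.comp measurable_prodMk_left
    simp only [Measure.map_apply (m _) hA]
    exact measurable_measure_prodMk_left (Γ_meas hA)

theorem mΓ (ω : ℕ → Bool) : Measurable (Γ ω) := Γ_meas.comp measurable_prodMk_left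

instance : ProbabilityTheory.IsMarkovKernel κ :=
  ⟨fun ω => Measure.isProbabilityMeasure_map (mΓ ω).aemeasurable⟩

theorem ν_bind : ν = (ν.map ζ).bind κ := by
  have h : ν.map ζ = L.map dig := by
    rw [ν, Measure.map_map ζ_meas Φ_meas]
    conv_rhs => rw [← (measurePreserving_fst (μ := L) (ν := L)).map_eq]
    rw [Measure.map_map dig_meas measurable_fst]
    refine Measure.map_congr ?_
    filter_upwards [Measure.quasiMeasurePreserving_snd.ae (ae_restrict_mem measurableSet_Ico)]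
      with w hw
    exact ζ_Γ _ hw
  ext A hA
  rw [Measure.bind_apply hA κ.aemeasurable, h, lintegral_map (κ.measurable_coe hA) dig_meas, ν,
    Measure.map_apply Φ_meas hA, Measure.prod_apply (Φ_meas hA)]
  congr 1
  ext s
  exact (Measure.map_apply (μ := L) (mΓ (dig s)) hA).symm

theorem supp0 : (fun _ => (0 : T × T)) ∈ ν.support := by
  rw [Measure.mem_support_iff_forall]
  intro U hU
  have ht : Tendsto Φ (𝓝[Ico 0 1 ×ˢ Ico 0 1] 0) (𝓝 fun _ => 0) := by
    rw [tendsto_pi_nhds]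
    intro n
    have h1 : ∀ᶠ w : ℝ × ℝ in 𝓝[Ico 0 1 ×ˢ Ico 0 1] 0, π ((1 / 2) ^ n * w.2, 0) = Φ w n := by
      have h2 : ∀ᶠ w : ℝ × ℝ in 𝓝 0, 2 ^ n * w.1 < 1 / 2 :=
        (by fun_prop : Continuous fun w : ℝ × ℝ => 2 ^ n * w.1).continuousAt.eventually
          (gt_mem_nhds (by simp))
      filter_upwards [nhdsWithin_le_nhds h2, self_mem_nhdsWithin] with w a b
      have key : ∀ k ≤ n, X (dig w.1) w.2 k = (1 / 2) ^ k * w.2 := by
        intro k hk
        induction k with
        | zero => simp [X]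
        | succ k ih =>
          have c1 : (2 : ℝ) ^ k * w.1 ≤ 2 ^ n * w.1 := mul_le_mul_of_nonneg_right
            (pow_le_pow_right₀ one_le_two (by omega)) b.1.1
          have c2 : 0 ≤ (2 : ℝ) ^ k * w.1 := mul_nonneg (by positivity) b.1.1
          have c3 : dig w.1 k = false := by
            rw [dig, Int.fract_eq_self.2 ⟨c2, by linarith⟩]; simp; linarith
          rw [X, ih (by omega), c3, pow_succ]; simp; ring
      rw [Φ, Γ, key n le_rfl]
    refine Tendsto.congr' h1 (tendsto_nhdsWithin_of_tendsto_nhds ?_)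
    have hc : Continuous fun w : ℝ × ℝ => π ((1 / 2) ^ n * w.2, 0) :=
      ((AddCircle.continuous_mk' (1 : ℝ)).comp (by fun_prop)).prodMk
        (continuous_const (y := ((0 : ℝ) : T)))
    simpa [π, Prod.mk_zero_zero] using hc.tendsto 0
  obtain ⟨V, hV, hVo, h0⟩ := mem_nhds_iff.1 hU
  refine lt_of_lt_of_le ?_ (measure_mono hV)
  rw [ν, Measure.map_apply Φ_meas hVo.measurableSet, L, Measure.prod_restrict,
    Measure.restrict_apply (Φ_meas hVo.measurableSet)]
  obtain ⟨W, hWo, hW0, hW⟩ := mem_nhdsWithin.1 (ht (hVo.mem_nhds h0))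
  have ho : IsOpen (W ∩ Ioo (0 : ℝ) 1 ×ˢ Ioo (0 : ℝ) 1) := hWo.inter (isOpen_Ioo.prod isOpen_Ioo)
  have hne : (W ∩ Ioo (0 : ℝ) 1 ×ˢ Ioo (0 : ℝ) 1).Nonempty := by
    refine mem_closure_iff.1 ?_ W hWo hW0
    rw [closure_prod_eq, closure_Ioo zero_ne_one]
    exact ⟨⟨le_rfl, zero_le_one⟩, le_rfl, zero_le_one⟩
  refine lt_of_lt_of_le (ho.measure_pos (volume.prod volume) hne) (measure_mono fun w hw => ?_)
  have := prod_mono Ioo_subset_Ico_self Ioo_subset_Ico_self hw.2
  exact ⟨hW ⟨hw.1, this⟩, this⟩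

end Pool.Agent.H.Kan
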